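import Pool.Agent.Helper72.GP.GoalsB

/-!
# Project GP (MP_c9dfb5_co), packet BRAN: branches
-/

set_option autoImplicit false

namespace Pool.Agent.Helper32.GP

open Finset Polynomial Pool.Agent.Helper72.GP
open scoped Polynomial.Bivariate Classical Topology

/-- the real zeros of `f(x, ·)` -/
noncomputable def Zr (f : ℝ[X][Y]) (x : ℝ) : Finset ℝ := (f.map (evalRingHom x)).roots.toFinset

theorem mem_Zr {f : ℝ[X][Y]} {x : ℝ} (h : (f.leadingCoeff).eval x ≠ 0) (y : ℝ) :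
    y ∈ Zr f x ↔ evr f x y = 0 := by
  have h0 : f.map (evalRingHom x) ≠ 0 := by
    intro h1
    apply h
    have h2 := congrArg (fun p => p.coeff f.natDegree) h1
    simpa [coeff_map] using h2
  unfold Zr evr
  rw [Multiset.mem_toFinset, mem_roots h0, IsRoot.def, map_evalRingHom_eval]

theorem rk_lt {f : ℝ[X][Y]} {x y y' : ℝ} (hy : y ∈ Zr f x) (h : y < y') :
    rk f x y < rk f x y' := by
  unfold rk
  refine card_lt_card ?_
  rw [ssubset_iff_of_subset]
  · refine ⟨y, mem_filter.2 ⟨hy, h⟩, fun h1 => ?_⟩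
    exact lt_irrefl _ (mem_filter.1 h1).2
  · intro z hz
    rw [mem_filter] at hz ⊢
    exact ⟨hz.1, hz.2.trans h⟩

theorem rk_inj {f : ℝ[X][Y]} {x y y' : ℝ} (hy : y ∈ Zr f x) (hy' : y' ∈ Zr f x)
    (h : rk f x y = rk f x y') : y = y' := by
  rcases lt_trichotomy y y' with h1 | h1 | h1
  · exact absurd h (rk_lt hy h1).ne
  · exact h1
  · exact absurd h.symm (rk_lt hy' h1).ne

theorem bran (hLOC : Pool.Agent.Helper72.GP.LOC) : Pool.Agent.Helper72.GP.BRAN := by
  intro f α β y0 hαβ hG h0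
  have hα : α ∈ Set.Icc α β := ⟨le_rfl, hαβ⟩
  set k := rk f α y0 with hk
  -- the set of ranks is locally constant
  have hloc : ∀ x0 ∈ Set.Icc α β, ∃ ε > 0, ∀ x ∈ Set.Icc α β, |x - x0| < ε →
      (Zr f x).image (rk f x) = (Zr f x0).image (rk f x0) := by
    intro x0 hx0
    obtain ⟨ε, hε, h1⟩ := hLOC f α β hαβ hG x0 hx0 1 one_pos
    refine ⟨ε, hε, fun x hx hxx => ?_⟩
    obtain ⟨h2, h3⟩ := h1 x hx hxx
    symm
    refine eq_of_subset_of_card_le ?_ ?_
    · intro l hl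
      obtain ⟨y, hy, rfl⟩ := mem_image.1 hl
      obtain ⟨y', hy', -, hr⟩ := h3 y ((mem_Zr (hG x0 hx0).1 y).1 hy)
      exact mem_image.2 ⟨y', (mem_Zr (hG x hx).1 y').2 hy', hr⟩
    · rw [card_image_of_injOn (s := Zr f x), card_image_of_injOn (s := Zr f x0)]
      · exact h2.le
      · intro y hy y' hy' hyy
        exact rk_inj (mem_coe.1 hy) (mem_coe.1 hy') hyy
      · intro y hy y' hy' hyy
        exact rk_inj (mem_coe.1 hy) (mem_coe.1 hy') hyy
  let F : ℝ → ℕ := fun x => if k ∈ (Zr f x).image (rk f x) then 1 else 0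
  have hF : ContinuousOn F (Set.Icc α β) := by
    intro x0 hx0
    obtain ⟨ε, hε, h1⟩ := hloc x0 hx0
    have h2 : F =ᶠ[𝓝[Set.Icc α β] x0] fun _ => F x0 := by
      have h3 : {x | |x - x0| < ε} ∈ 𝓝 x0 := by
        have := Metric.ball_mem_nhds x0 hε
        refine Filter.mem_of_superset this fun x hx => ?_
        rw [Metric.mem_ball, Real.dist_eq] at hx
        exact hx
      filter_upwards [self_mem_nhdsWithin, mem_nhdsWithin_of_mem_nhds h3] with x hx hxx
      change (if k ∈ (Zr f x).image (rk f x) then 1 else 0) =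
        if k ∈ (Zr f x0).image (rk f x0) then 1 else 0
      rw [h1 x hx hxx]
    exact continuousWithinAt_const.congr_of_eventuallyEq h2 rfl
  have hFα : F α = 1 := by
    change (if k ∈ (Zr f α).image (rk f α) then 1 else 0) = 1
    rw [if_pos]
    exact mem_image.2 ⟨y0, (mem_Zr (hG α hα).1 y0).2 h0, rfl⟩
  have hex : ∀ x, ∃ y, x ∈ Set.Icc α β → evr f x y = 0 ∧ rk f x y = k := by
    intro x
    by_cases hx : x ∈ Set.Icc α β
    · have h1 : F x = 1 := by
        rw [← hFα]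
        exact isPreconnected_Icc.constant hF hx hα
      have h2 : k ∈ (Zr f x).image (rk f x) := by
        by_contra hcon
        have h3 : F x = 0 := if_neg hcon
        omega
      obtain ⟨y, hy, hr⟩ := mem_image.1 h2
      exact ⟨y, fun _ => ⟨(mem_Zr (hG x hx).1 y).1 hy, hr⟩⟩
    · exact ⟨0, fun h => absurd h hx⟩
  choose ψ hψ using hex
  have huniq : ∀ x ∈ Set.Icc α β, ∀ y, evr f x y = 0 → rk f x y = k → y = ψ x := by
    intro x hx y hy hr
    obtain ⟨h1, h2⟩ := hψ x hx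
    exact rk_inj ((mem_Zr (hG x hx).1 y).2 hy) ((mem_Zr (hG x hx).1 _).2 h1) (hr.trans h2.symm)
  refine ⟨ψ, ?_, (huniq α hα y0 h0 rfl).symm, fun x hx => (hψ x hx).1, huniq⟩
  intro x0 hx0
  rw [Metric.continuousWithinAt_iff]
  intro η hη
  obtain ⟨ε, hε, h1⟩ := hLOC f α β hαβ hG x0 hx0 η hη
  refine ⟨ε, hε, fun x hx hxx => ?_⟩
  rw [Real.dist_eq] at hxx ⊢
  obtain ⟨h2, h3⟩ := hψ x0 hx0
  obtain ⟨y, hy, hyη, hyr⟩ := (h1 x hx hxx).2 (ψ x0) h2
  rw [← huniq x hx y hy (hyr.trans h3)]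
  exact hyη

end Pool.Agent.Helper32.GP
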