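import Pool.Agent.Helper72.GP.Goals

/-!
# Project GP (MP_c9dfb5_co), packet DEPC: case (II)
-/

set_option autoImplicit false

namespace Pool.Agent.Helper32.GP

open Finset Pool.Agent.Helper72.GP
open scoped Classical

/-- the congruence mod `R` -/
theorem depc_k (R L a b : ℕ) (hR : R.Prime) (hL : L ≤ R) (ha : 0 < a)
    (hab : a + b < R) (v w : ZMod R) (hv : v.val < L) (hw : w.val < L)
    (hu : (((a + b : ℕ) : ZMod R)⁻¹ * ((b : ZMod R) * v + (a : ZMod R) * w)).val < L) :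
    ∃ k : ℤ, (b : ℤ) * v.val + a * w.val -
      (a + b) * (((a + b : ℕ) : ZMod R)⁻¹ * ((b : ZMod R) * v + (a : ZMod R) * w)).val = k * R ∧
      -((a + b : ℕ) : ℤ) ≤ k ∧ k ≤ ((a + b : ℕ) : ℤ) := by
  have : Fact R.Prime := ⟨hR⟩
  set u := ((a + b : ℕ) : ZMod R)⁻¹ * ((b : ZMod R) * v + (a : ZMod R) * w) with hu0
  have hm : ((a + b : ℕ) : ZMod R) ≠ 0 := by
    intro h
    rw [ZMod.natCast_eq_zero_iff] at h
    have := Nat.le_of_dvd (by omega) h
    omega
  have h1 : (((b : ℤ) * v.val + a * w.val - (a + b) * u.val : ℤ) : ZMod R) = 0 := by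
    push_cast
    rw [ZMod.natCast_zmod_val, ZMod.natCast_zmod_val, ZMod.natCast_zmod_val, hu0, ← mul_assoc]
    have h2 : ((a : ZMod R) + b) * ((a + b : ℕ) : ZMod R)⁻¹ = 1 := by
      rw [← Nat.cast_add]
      exact mul_inv_cancel₀ hm
    rw [h2]
    ring
  rw [ZMod.intCast_zmod_eq_zero_iff_dvd] at h1
  obtain ⟨k, hk⟩ := h1
  refine ⟨k, by rw [hk]; ring, ?_, ?_⟩
  · by_contra hcon
    push Not at hcon
    have h3 : ((a + b : ℕ) : ℤ) * R < -(R * k) := by
      have hR0 : (0 : ℤ) < R := by exact_mod_cast hR.pos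
      nlinarith
    rw [← hk] at h3
    have h4 : (u.val : ℤ) ≤ R := by exact_mod_cast (hu.le.trans hL)
    have h5 : (0 : ℤ) ≤ v.val := by positivity
    have h6 : (0 : ℤ) ≤ w.val := by positivity
    push_cast at h3
    have h7 : ((a : ℤ) + b) * u.val ≤ (a + b) * R := mul_le_mul_of_nonneg_left h4 (by positivity)
    have h8 : 0 ≤ (b : ℤ) * v.val := by positivity
    have h9 : 0 ≤ (a : ℤ) * w.val := by positivity
    linarith
  · by_contra hcon
    push Not at hcon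
    have h3 : ((a + b : ℕ) : ℤ) * R < R * k := by
      have hR0 : (0 : ℤ) < R := by exact_mod_cast hR.pos
      nlinarith
    rw [← hk] at h3
    have h4 : (v.val : ℤ) ≤ R := by exact_mod_cast (hv.le.trans hL)
    have h5 : (w.val : ℤ) ≤ R := by exact_mod_cast (hw.le.trans hL)
    push_cast at h3
    have h7 : (b : ℤ) * v.val ≤ b * R := mul_le_mul_of_nonneg_left h4 (by positivity)
    have h8 : (a : ℤ) * w.val ≤ a * R := mul_le_mul_of_nonneg_left h5 (by positivity)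
    have h9 : 0 ≤ ((a : ℤ) + b) * u.val := by positivity
    linarith

theorem depc_minor (R a b : ℕ) (hR : 0 < R) (ha : 0 < a) (U1 U2 U3 : Fin 8 → ℕ)
    (k : Fin 8 → ℤ) (hk : ∀ i, (b : ℤ) * U1 i + a * U3 i - (a + b) * U2 i = k i * R)
    (hD : Dep U1 U2 U3) (i j : Fin 8) :
    ((U1 i : ℤ) - U3 i) * k j = ((U1 j : ℤ) - U3 j) * k i := by
  have h1 := hD i j
  have e1 : ∀ i, ((a : ℤ) + b) * ((U1 i : ℤ) - U2 i) = a * ((U1 i : ℤ) - U3 i) + k i * R := by
    intro i
    linear_combination hk i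
  have e2 : ∀ i, ((a : ℤ) + b) * ((U3 i : ℤ) - U2 i) = -b * ((U1 i : ℤ) - U3 i) + k i * R := by
    intro i
    linear_combination hk i
  have h2 : (a * ((U1 i : ℤ) - U3 i) + k i * R) * (-b * ((U1 j : ℤ) - U3 j) + k j * R) =
      (a * ((U1 j : ℤ) - U3 j) + k j * R) * (-b * ((U1 i : ℤ) - U3 i) + k i * R) := by
    rw [← e1, ← e2, ← e1, ← e2]
    linear_combination ((a : ℤ) + b) ^ 2 * h1
  have h3 : (((a : ℤ) + b) * R) * (((U1 i : ℤ) - U3 i) * k j - ((U1 j : ℤ) - U3 j) * k i) = 0 := by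
    linear_combination h2
  have h4 : (((a : ℤ) + b) * R) ≠ 0 := by
    have h5 : (0 : ℤ) < a := by exact_mod_cast ha
    have h6 : (0 : ℤ) < R := by exact_mod_cast hR
    positivity
  exact sub_eq_zero.1 ((mul_eq_zero.1 h3).resolve_left h4)

theorem depc : Pool.Agent.Helper72.GP.DEPC := by
  intro R L a b hR hL ha hb hab
  have : Fact R.Prime := ⟨hR⟩
  set S := {p : (Fin 8 → ZMod R) × (Fin 8 → ZMod R) // (∀ i, (p.1 i).val < L) ∧ (∀ i, (p.2 i).val < L) ∧
    (∀ i, (((a + b : ℕ) : ZMod R)⁻¹ * ((b : ZMod R) * p.1 i + (a : ZMod R) * p.2 i)).val < L) ∧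
    Dep (fun i => (p.1 i).val)
      (fun i => (((a + b : ℕ) : ZMod R)⁻¹ * ((b : ZMod R) * p.1 i + (a : ZMod R) * p.2 i)).val)
      (fun i => (p.2 i).val) ∧
    ¬ Kz a b (fun i => (p.1 i).val)
      (fun i => (((a + b : ℕ) : ZMod R)⁻¹ * ((b : ZMod R) * p.1 i + (a : ZMod R) * p.2 i)).val)
      (fun i => (p.2 i).val)} with hS
  have hk : ∀ s : S, ∃ k : Fin 8 → ℤ, (∀ i, (b : ℤ) * (s.1.1 i).val + a * (s.1.2 i).val -
      (a + b) * (((a + b : ℕ) : ZMod R)⁻¹ * ((b : ZMod R) * s.1.1 i +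
        (a : ZMod R) * s.1.2 i)).val = k i * R) ∧
      ∀ i, -((a + b : ℕ) : ℤ) ≤ k i ∧ k i ≤ ((a + b : ℕ) : ℤ) := by
    intro s
    have h1 := fun i => depc_k R L a b hR hL ha hab (s.1.1 i) (s.1.2 i) (s.2.1 i) (s.2.2.1 i)
      (s.2.2.2.1 i)
    choose k hk1 hk2 using h1
    exact ⟨k, hk1, hk2⟩
  choose k hk1 hk2 using hk
  have hi0 : ∀ κ : Fin 8 → ℤ, ∃ i, (∃ j, κ j ≠ 0) → κ i ≠ 0 := by
    intro κ
    by_cases h : ∃ j, κ j ≠ 0
    · obtain ⟨j, hj⟩ := h
      exact ⟨j, fun _ => hj⟩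
    · exact ⟨0, fun h' => absurd h' h⟩
  choose i0 hi0 using hi0
  have hne : ∀ s : S, k s (i0 (k s)) ≠ 0 := by
    intro s
    apply hi0
    by_contra hcon
    push Not at hcon
    apply s.2.2.2.2.2
    intro i
    have h1 := hk1 s i
    rw [hcon i, zero_mul] at h1
    have h2 : (b : ℤ) * (s.1.1 i).val + a * (s.1.2 i).val =
      (a + b) * (((a + b : ℕ) : ZMod R)⁻¹ * ((b : ZMod R) * s.1.1 i +
        (a : ZMod R) * s.1.2 i)).val := by linarith
    exact_mod_cast h2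
  let f : S → (Fin 8 → Fin L) × (Fin 8 → Fin (2 * (a + b) + 1)) × Fin (2 * L) := fun s =>
    (fun i => ⟨(s.1.1 i).val, s.2.1 i⟩,
     fun i => ⟨(k s i + (a + b : ℕ)).toNat, by have := hk2 s i; omega⟩,
     ⟨(((s.1.1 (i0 (k s))).val : ℤ) - (s.1.2 (i0 (k s))).val + L).toNat, by
        have h1 := s.2.1 (i0 (k s))
        have h2 := s.2.2.1 (i0 (k s))
        omega⟩)
  have hf : Function.Injective f := by
    intro s s' hss
    have h1 := congrArg (fun t => t.1) hss
    have h2 := congrArg (fun t => t.2.1) hss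
    have h3 := congrArg (fun t => t.2.2) hss
    have e1 : ∀ i, (s.1.1 i).val = (s'.1.1 i).val := by
      intro i
      have := congrFun h1 i
      exact congrArg Fin.val this
    have e2 : k s = k s' := by
      funext i
      have h4 := congrArg Fin.val (congrFun h2 i)
      have h5 : (k s i + (a + b : ℕ)).toNat = (k s' i + (a + b : ℕ)).toNat := h4
      have h6 := hk2 s i
      have h7 := hk2 s' i
      omega
    have e3 : ((s.1.1 (i0 (k s))).val : ℤ) - (s.1.2 (i0 (k s))).val =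
        ((s'.1.1 (i0 (k s))).val : ℤ) - (s'.1.2 (i0 (k s))).val := by
      have h4 : (((s.1.1 (i0 (k s))).val : ℤ) - (s.1.2 (i0 (k s))).val + L).toNat =
        (((s'.1.1 (i0 (k s'))).val : ℤ) - (s'.1.2 (i0 (k s'))).val + L).toNat :=
        congrArg Fin.val h3
      rw [← e2] at h4
      have h5 := s.2.2.1 (i0 (k s))
      have h6 := s'.2.2.1 (i0 (k s))
      omega
    have e4 : ∀ j, ((s.1.1 j).val : ℤ) - (s.1.2 j).val = ((s'.1.1 j).val : ℤ) - (s'.1.2 j).val := by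
      intro j
      have m1 := depc_minor R a b hR.pos ha _ _ _ (k s) (hk1 s) s.2.2.2.2.1 (i0 (k s)) j
      have m2 := depc_minor R a b hR.pos ha _ _ _ (k s') (hk1 s') s'.2.2.2.2.1 (i0 (k s)) j
      rw [← e2] at m2
      rw [e3] at m1
      have m3 : (((s.1.1 j).val : ℤ) - (s.1.2 j).val) * k s (i0 (k s)) =
          (((s'.1.1 j).val : ℤ) - (s'.1.2 j).val) * k s (i0 (k s)) := by
        rw [← m1, ← m2]
      exact mul_right_cancel₀ (hne s) m3
    apply Subtype.ext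
    apply Prod.ext
    · funext i
      exact ZMod.val_injective R (e1 i)
    · funext i
      apply ZMod.val_injective R
      have h4 := e4 i
      have h5 := e1 i
      omega
  have h1 := Nat.card_le_card_of_injective f hf
  refine h1.trans (le_of_eq ?_)
  rw [Nat.card_prod, Nat.card_prod]
  simp
  ring

end Pool.Agent.Helper32.GP
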